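import Pool.Agent.Helper31.BQ.Stmts2

set_option autoImplicit false

namespace Pool.Agent.Helper74.BQ

open Filter Topology
open Pool.Agent.Helper31.BQ

theorem st_WK : ST_WK := by
  intro H _ _ _ p hp1 hsym hp2 hp3 hpid x C hx hv
  choose v hv using hv
  have hC : 0 ≤ C := (norm_nonneg _).trans (hx 0)
  have hvC : ∀ m, ‖v m‖ ≤ C := by
    intro m
    refine le_of_tendsto (hv m).norm (Eventually.of_forall fun j => ?_)
    calc ‖p m (x j)‖ ≤ ‖p m‖ * ‖x j‖ := (p m).le_opNorm _
      _ ≤ 1 * C := mul_le_mul (hp1 m) (hx j) (norm_nonneg _) zero_le_one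
      _ = C := one_mul C
  have hpv : ∀ n m, n ≤ m → p n (v m) = v n := by
    intro n m hnm
    have h1 : Tendsto (fun j => p n (p m (x j))) atTop (𝓝 (p n (v m))) :=
      ((p n).continuous.tendsto _).comp (hv m)
    have h2 : (fun j => p n (p m (x j))) = fun j => p n (x j) := by
      funext j
      exact hp2 n m (x j) hnm
    rw [h2] at h1
    exact tendsto_nhds_unique h1 (hv n)
  have horth : ∀ n m, n ≤ m → ‖v m - v n‖ ^ 2 = ‖v m‖ ^ 2 - ‖v n‖ ^ 2 := by
    intro n m hnm
    have h1 : inner ℝ (v m) (v n) = ‖v n‖ ^ 2 := by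
      have e1 : inner ℝ (p n (v m)) (v n) = inner ℝ (v m) (p n (v n)) := hsym n _ _
      rw [hpv n m hnm, hpv n n le_rfl] at e1
      rw [← e1, real_inner_self_eq_norm_sq]
    rw [norm_sub_sq_real, h1]
    ring
  have hmono : Monotone fun m => ‖v m‖ ^ 2 := by
    intro n m hnm
    have h1 := horth n m hnm
    have h2 := sq_nonneg ‖v m - v n‖
    show ‖v n‖ ^ 2 ≤ ‖v m‖ ^ 2
    linarith
  have hbdd : BddAbove (Set.range fun m => ‖v m‖ ^ 2) := by
    refine ⟨C ^ 2, ?_⟩
    rintro _ ⟨m, rfl⟩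
    exact pow_le_pow_left₀ (norm_nonneg _) (hvC m) 2
  have hlim := tendsto_atTop_ciSup hmono hbdd
  have hcau : CauchySeq v := by
    rw [Metric.cauchySeq_iff']
    intro ε hε
    have hc := hlim.cauchySeq
    rw [Metric.cauchySeq_iff'] at hc
    obtain ⟨N, hN⟩ := hc (ε ^ 2) (by positivity)
    refine ⟨N, fun n hn => ?_⟩
    have h1 := hN n hn
    rw [Real.dist_eq] at h1
    have h2 := horth N n hn
    have h3 : ‖v n - v N‖ ^ 2 < ε ^ 2 := by
      rw [h2]
      exact (le_abs_self _).trans_lt h1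
    rw [dist_eq_norm]
    exact lt_of_pow_lt_pow_left₀ 2 hε.le h3
  obtain ⟨y, hy⟩ := cauchySeq_tendsto_of_complete hcau
  have hpy : ∀ m, p m y = v m := by
    intro m
    have h1 : Tendsto (fun n => p m (v n)) atTop (𝓝 (p m y)) :=
      ((p m).continuous.tendsto _).comp hy
    have h2 : Tendsto (fun n => p m (v n)) atTop (𝓝 (v m)) := by
      apply tendsto_const_nhds.congr'
      filter_upwards [eventually_ge_atTop m] with n hn
      exact (hpv m n hn).symm
    exact tendsto_nhds_unique h1 h2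
  refine ⟨y, fun z => ?_, fun m => ?_⟩
  · rw [Metric.tendsto_atTop]
    intro ε hε
    have hD : 0 < C + ‖y‖ + 1 := by positivity
    have hz := hpid z
    rw [Metric.tendsto_atTop] at hz
    obtain ⟨m, hm⟩ := hz (ε / 2 / (C + ‖y‖ + 1)) (by positivity)
    have hm := hm m le_rfl
    rw [dist_eq_norm, lt_div_iff₀ hD] at hm
    have hj : Tendsto (fun j => inner ℝ z (p m (x j))) atTop (𝓝 (inner ℝ z (v m))) :=
      tendsto_const_nhds.inner (hv m)
    rw [Metric.tendsto_atTop] at hj
    obtain ⟨J, hJ⟩ := hj (ε / 2) (by positivity)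
    refine ⟨J, fun j hj => ?_⟩
    have h1 := hJ j hj
    rw [Real.dist_eq, ← hpy m, ← hsym m z (x j), ← hsym m z y] at h1
    rw [Real.dist_eq]
    have e : inner ℝ z (x j) - inner ℝ z y =
        (inner ℝ (p m z) (x j) - inner ℝ (p m z) y) - inner ℝ (p m z - z) (x j - y) := by
      rw [inner_sub_left, inner_sub_right, inner_sub_right]
      ring
    have h2 : |inner ℝ (p m z - z) (x j - y)| ≤ ‖p m z - z‖ * (C + ‖y‖ + 1) := by
      refine (abs_real_inner_le_norm _ _).trans ?_
      apply mul_le_mul_of_nonneg_left _ (norm_nonneg _)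
      have := norm_sub_le (x j) y
      have := hx j
      linarith
    rw [e]
    calc |(inner ℝ (p m z) (x j) - inner ℝ (p m z) y) - inner ℝ (p m z - z) (x j - y)|
        ≤ |inner ℝ (p m z) (x j) - inner ℝ (p m z) y| + |inner ℝ (p m z - z) (x j - y)| :=
          abs_sub _ _
      _ < ε / 2 + ε / 2 := add_lt_add h1 (h2.trans_lt hm)
      _ = ε := by ring
  · rw [hpy m]
    exact hv m

end Pool.Agent.Helper74.BQ
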