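import Pool.Agent.Helper31.BQ.Stmts3

set_option autoImplicit false

namespace Pool.Agent.Helper74.BQ

open Filter Topology
open Pool.Agent.Helper31.BQ

universe u

theorem st_FN (h1 : ST_GR.{u}) (h2 : ST_YB.{u}) (h3 : ST_GN2.{u}) : ST_FN.{u} := by
  intro E _ _ _ hQ
  apply h1 E
  intro x hx ε hε
  obtain ⟨Y, iY1, iY2, M, j, y, hYc, hM, hPP, hJC, hy, hjy, hVM⟩ := h2 E x hx
  obtain ⟨T, hT, hlim⟩ := h3 Y E M j hM hPP hJC hQ
  obtain ⟨C, hC⟩ : ∃ C, ∀ i, ‖T i‖ ≤ C := by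
    apply banach_steinhaus
    intro x
    obtain ⟨C, hC⟩ := (hlim x).norm.bddAbove_range
    exact ⟨C, fun i => hC ⟨i, rfl⟩⟩
  have hC0 : 0 ≤ C := (norm_nonneg _).trans (hC 0)
  -- the null sequence is bounded
  obtain ⟨R, hR⟩ := hy.norm.bddAbove_range
  have hR : ∀ n, ‖y n‖ ≤ R := fun n => hR ⟨n, rfl⟩
  have hR0 : 0 ≤ R := (norm_nonneg _).trans (hR 0)
  -- small tails
  have hD : 0 < C + ‖j‖ + 1 := by positivity
  rw [Metric.tendsto_atTop] at hy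
  obtain ⟨N, hN⟩ := hy (ε / 2 / (C + ‖j‖ + 1)) (by positivity)
  have hev : ∀ᶠ i in atTop, ∀ n ∈ Finset.range N, ‖T i (y n) - j (y n)‖ < ε / 2 := by
    rw [eventually_all_finset]
    intro n _
    have h := hlim (y n)
    rw [Metric.tendsto_atTop] at h
    obtain ⟨K, hK⟩ := h (ε / 2) (by positivity)
    filter_upwards [eventually_ge_atTop K] with i hi
    have h2 := hK i hi
    rwa [dist_eq_norm] at h2
  obtain ⟨i, hi⟩ := hev.exists
  have hall : ∀ n, ‖T i (y n) - j (y n)‖ ≤ ε / 2 := by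
    intro n
    by_cases hn : n < N
    · exact (hi n (Finset.mem_range.2 hn)).le
    · have h4 := hN n (not_lt.1 hn)
      rw [dist_eq_norm, sub_zero, lt_div_iff₀ hD] at h4
      have h5 : ‖T i (y n) - j (y n)‖ ≤ ‖T i (y n)‖ + ‖j (y n)‖ := norm_sub_le _ _
      have h6 : ‖T i (y n)‖ ≤ C * ‖y n‖ :=
        ((T i).le_opNorm _).trans (mul_le_mul_of_nonneg_right (hC i) (norm_nonneg _))
      have h7 : ‖j (y n)‖ ≤ ‖j‖ * ‖y n‖ := j.le_opNorm _
      nlinarith [norm_nonneg (y n)]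
  obtain ⟨S, hS, hd⟩ := Metric.mem_closure_iff.1 (hT i) (ε / 2 / (R + 1)) (by positivity)
  obtain ⟨T', hT', hST⟩ := hVM S hS
  refine ⟨T', hT', fun n => ?_⟩
  have e : T' (x n) - x n = (S - T i) (y n) + (T i (y n) - j (y n)) := by
    rw [← hjy n, ← hST, sub_apply]
    abel
  have h8 : ‖(S - T i) (y n)‖ ≤ ε / 2 := by
    have h9 : ‖S - T i‖ ≤ ε / 2 / (R + 1) := by
      rw [← dist_eq_norm, dist_comm]
      exact hd.le
    have h10 : ‖y n‖ ≤ R + 1 := (hR n).trans (by linarith)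
    calc ‖(S - T i) (y n)‖ ≤ ‖S - T i‖ * ‖y n‖ := (S - T i).le_opNorm _
      _ ≤ ε / 2 / (R + 1) * (R + 1) := mul_le_mul h9 h10 (norm_nonneg _) (by positivity)
      _ = ε / 2 := by field_simp
  rw [e]
  calc ‖(S - T i) (y n) + (T i (y n) - j (y n))‖ ≤
        ‖(S - T i) (y n)‖ + ‖T i (y n) - j (y n)‖ := norm_add_le _ _
    _ ≤ ε := by linarith [hall n]

end Pool.Agent.Helper74.BQ
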